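import Pool.Agent.W2helper58.HP.Transfer

/-!
# Explicit lines, affine forms and products of affine forms
-/

open Polynomial

namespace Pool.Agent.W2helper58.HP

/-! ### Products of elements with images of degree at most one -/

section prod

variable {K : Type*} [Field K] {R : Type*} [CommRing R] [Algebra K R]

theorem Inj2.left {φ : R →ₐ[K] K[X]} {x y : R} (h : Inj2 φ x y) (h0 : φ x = 0) : x = 0 := by
  have := h 1 0 (by simpa using h0)
  simpa using this

theorem Inj2.prop {φ : R →ₐ[K] K[X]} {x y : R} (h : Inj2 φ x y) {μ : K}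
    (h0 : φ x = C μ * φ y) : x = μ • y := by
  have := h 1 (-μ) (by
    rw [map_add, map_smul, map_smul, one_smul, h0, neg_smul, smul_eq_C_mul]
    ring)
  rw [one_smul, neg_smul, ← sub_eq_add_neg] at this
  exact sub_eq_zero.1 this

theorem const_prod (φ : R →ₐ[K] K[X]) (F : Set R) (h1 : (1 : R) ∈ F)
    (hF : ∀ x ∈ F, ∀ y ∈ F, Inj2 φ x y) (T : Multiset R) (hT : ∀ y ∈ T, y ∈ F)
    (hd : ∀ y ∈ T, (φ y).natDegree = 0) : ∃ μ : K, T.prod = μ • (1 : R) := by
  induction T using Multiset.induction with
  | empty => exact ⟨1, by simp⟩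
  | cons a S ih =>
    obtain ⟨μ, hμ⟩ := ih (fun y hy => hT y (Multiset.mem_cons_of_mem hy))
      (fun y hy => hd y (Multiset.mem_cons_of_mem hy))
    obtain ⟨ν, hν⟩ := natDegree_eq_zero.1 (hd a (Multiset.mem_cons_self a S))
    have ha : a = ν • (1 : R) := (hF a (hT a (Multiset.mem_cons_self a S)) 1 h1).prop (by
      rw [map_one, mul_one, hν])
    refine ⟨ν * μ, ?_⟩
    rw [Multiset.prod_cons, hμ, ha, smul_mul_assoc, one_mul, smul_smul]

theorem prod_prop (φ : R →ₐ[K] K[X]) (F : Set R) (h1 : (1 : R) ∈ F)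
    (hF : ∀ x ∈ F, ∀ y ∈ F, Inj2 φ x y) (hdeg : ∀ x ∈ F, (φ x).natDegree ≤ 1)
    (S : Multiset R) : ∀ (T : Multiset R) (l : K), (∀ y ∈ S, y ∈ F) → (∀ y ∈ T, y ∈ F) →
      φ S.prod ≠ 0 → φ S.prod = C l * φ T.prod → S.prod = l • T.prod := by
  classical
  induction S using Multiset.induction with
  | empty =>
    intro T l _ hT hne h
    rw [Multiset.prod_zero, map_one] at h
    have hdvd : ∀ y ∈ T, (φ y).natDegree = 0 := by
      intro y hy
      have h2 : φ y ∣ 1 := by
        rw [h, ← Multiset.cons_erase hy, Multiset.prod_cons, map_mul]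
        exact ⟨C l * φ (T.erase y).prod, by ring⟩
      exact natDegree_eq_zero_of_isUnit (isUnit_of_dvd_one h2)
    obtain ⟨μ, hμ⟩ := const_prod φ F h1 hF T hT hdvd
    rw [hμ, map_smul, map_one, smul_eq_C_mul, mul_one, ← C_mul] at h
    have h3 : l * μ = 1 := by
      have := h.symm
      rw [← C_1] at this
      exact C_injective this
    rw [Multiset.prod_zero, hμ, smul_smul, h3, one_smul]
  | cons a S ih =>
    intro T l hS hT hne h
    have haF : a ∈ F := hS a (Multiset.mem_cons_self a S)
    have hS' : ∀ y ∈ S, y ∈ F := fun y hy => hS y (Multiset.mem_cons_of_mem hy)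
    rw [Multiset.prod_cons, map_mul] at h hne
    have hane : φ a ≠ 0 := left_ne_zero_of_mul hne
    have hSne : φ S.prod ≠ 0 := right_ne_zero_of_mul hne
    have hl : l ≠ 0 := by
      rintro rfl
      rw [C_0, zero_mul] at h
      exact hne h
    rcases Nat.eq_zero_or_pos (φ a).natDegree with hd | hd
    · obtain ⟨ν, hν⟩ := natDegree_eq_zero.1 hd
      have hν0 : ν ≠ 0 := by
        rintro rfl
        rw [C_0] at hν
        exact hane hν.symm
      have ha : a = ν • (1 : R) := (hF a haF 1 h1).prop (by rw [map_one, mul_one, hν])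
      have h2 : S.prod = (l / ν) • T.prod := by
        refine ih T (l / ν) hS' hT hSne ?_
        have h3 : C ν * φ S.prod = C ν * (C (l / ν) * φ T.prod) := by
          have e : (C ν : K[X]) * C (l / ν) = C l := by rw [← C_mul, mul_div_cancel₀ _ hν0]
          rw [← mul_assoc, e, ← h, hν]
        exact mul_left_cancel₀ (by rw [hν]; exact hane) h3
      rw [Multiset.prod_cons, ha, h2, smul_mul_assoc, one_mul, smul_smul,
        mul_div_cancel₀ _ hν0]
    · have hd1 : (φ a).natDegree = 1 := le_antisymm (hdeg a haF) hd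
      have hprime : Prime (φ a) := by
        apply Irreducible.prime
        apply irreducible_of_degree_eq_one
        rw [degree_eq_natDegree hane, hd1]
        rfl
      have hdvd : φ a ∣ (T.map φ).prod := by
        have h2 : φ a ∣ C l * φ T.prod := by rw [← h]; exact dvd_mul_right _ _
        rcases hprime.dvd_or_dvd h2 with h3 | h3
        · exfalso
          have h4 := natDegree_le_of_dvd h3 (C_ne_zero.2 hl)
          rw [natDegree_C] at h4
          omega
        · rwa [map_multiset_prod] at h3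
      obtain ⟨y, hy, hay⟩ := hprime.exists_mem_multiset_map_dvd hdvd
      have hyF : y ∈ F := hT y hy
      have hTne : φ T.prod ≠ 0 := by
        intro h0
        rw [h0, mul_zero] at h
        exact hne h
      have hyne : φ y ≠ 0 := by
        intro h0
        apply hTne
        rw [← Multiset.cons_erase hy, Multiset.prod_cons, map_mul, h0, zero_mul]
      obtain ⟨z, hz⟩ := hay
      have hzne : z ≠ 0 := by
        rintro rfl
        rw [mul_zero] at hz
        exact hyne hz
      have hzd : z.natDegree = 0 := by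
        have h4 := hdeg y hyF
        rw [hz, natDegree_mul hane hzne, hd1] at h4
        omega
      obtain ⟨ν, hν⟩ := natDegree_eq_zero.1 hzd
      have hya : y = ν • a := (hF y hyF a haF).prop (by rw [hz, ← hν]; ring)
      have h2 : S.prod = (l * ν) • (T.erase y).prod := by
        refine ih (T.erase y) (l * ν) hS' (fun x hx => hT x (Multiset.mem_of_mem_erase hx)) hSne ?_
        have h5 : φ a * φ S.prod = φ a * (C (l * ν) * φ (T.erase y).prod) := by
          rw [h]
          conv_lhs => rw [← Multiset.cons_erase hy, Multiset.prod_cons, map_mul, hz, ← hν]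
          rw [C_mul]
          ring
        exact mul_left_cancel₀ hane h5
      have h6 : T.prod = y * (T.erase y).prod := by
        conv_lhs => rw [← Multiset.cons_erase hy, Multiset.prod_cons]
      rw [Multiset.prod_cons, h2, h6]
      conv_rhs => rw [hya]
      rw [mul_smul_comm, smul_mul_assoc, smul_smul, ← hya]

theorem prod_zero (φ : R →ₐ[K] K[X]) (F : Set R)
    (hF : ∀ x ∈ F, ∀ y ∈ F, Inj2 φ x y) (S : Multiset R) (hS : ∀ y ∈ S, y ∈ F)
    (h : φ S.prod = 0) : S.prod = 0 := by
  rw [map_multiset_prod, Multiset.prod_eq_zero_iff] at h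
  obtain ⟨y, hy, h0⟩ := Multiset.mem_map.1 h
  have := (hF y (hS y hy) y (hS y hy)).left h0
  rw [this] at hy
  exact Multiset.prod_eq_zero hy

theorem prod_inj2 (φ : R →ₐ[K] K[X]) (F : Set R) (h1 : (1 : R) ∈ F)
    (hF : ∀ x ∈ F, ∀ y ∈ F, Inj2 φ x y) (hdeg : ∀ x ∈ F, (φ x).natDegree ≤ 1)
    (S T : Multiset R) (hS : ∀ y ∈ S, y ∈ F) (hT : ∀ y ∈ T, y ∈ F) :
    Inj2 φ S.prod T.prod := by
  intro α β h
  by_cases hα : α = 0
  · subst hα
    rw [zero_smul, zero_add] at h ⊢
    rw [map_smul] at h
    rcases smul_eq_zero.1 h with h2 | h2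
    · rw [h2, zero_smul]
    · rw [prod_zero φ F hF T hT h2, smul_zero]
  by_cases hx : φ S.prod = 0
  · rw [prod_zero φ F hF S hS hx, smul_zero, zero_add] at h ⊢
    rw [map_smul] at h
    rcases smul_eq_zero.1 h with h2 | h2
    · rw [h2, zero_smul]
    · rw [prod_zero φ F hF T hT h2, smul_zero]
  have h2 : φ S.prod = C (-(β / α)) * φ T.prod := by
    rw [map_add, map_smul, map_smul, smul_eq_C_mul, smul_eq_C_mul] at h
    have h3 : (C α : K[X]) * C (α⁻¹) = 1 := by
      rw [← C_mul, mul_inv_cancel₀ hα, C_1]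
    rw [div_eq_mul_inv, C_neg, C_mul]
    linear_combination (C (α⁻¹) : K[X]) * h - φ S.prod * h3
  rw [prod_prop φ F h1 hF hdeg S T _ hS hT hx h2, smul_smul, ← add_smul]
  have : α * -(β / α) + β = 0 := by field_simp; ring
  rw [this, zero_smul]

end prod

/-! ### Affine forms and the lines -/

/-- the affine form with coefficients `v` -/
noncomputable def aff {n : ℕ} (v : Fin (n + 1) → ℚ) : MvPolynomial (Fin n) ℚ :=
  MvPolynomial.C (v 0) + ∑ i, MvPolynomial.C (v i.succ) * MvPolynomial.X i

theorem exists_aff {n : ℕ} (P : MvPolynomial (Fin n) ℚ) (hP : P.totalDegree ≤ 1) :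
    ∃ v, P = aff v := by
  classical
  refine ⟨Fin.cons (P.coeff 0) (fun i => P.coeff (Finsupp.single i 1)), ?_⟩
  unfold aff
  simp only [Fin.cons_zero, Fin.cons_succ]
  ext m
  rw [MvPolynomial.coeff_add, MvPolynomial.coeff_C, MvPolynomial.coeff_sum]
  simp only [MvPolynomial.coeff_C_mul, MvPolynomial.coeff_X, mul_ite, mul_one, mul_zero]
  by_cases h0 : m = 0
  · subst h0
    rw [if_pos rfl, Finset.sum_eq_zero, add_zero]
    intro i _
    rw [if_neg]
    intro h
    have := DFunLike.congr_fun h i
    simp at this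
  · rw [if_neg (Ne.symm h0), zero_add]
    by_cases h1 : ∃ i, Finsupp.single i 1 = m
    · obtain ⟨i, rfl⟩ := h1
      rw [Finset.sum_eq_single i]
      · rw [if_pos rfl]
      · intro j _ hj
        rw [if_neg]
        intro h
        exact hj ((Finsupp.single_left_injective one_ne_zero) h)
      · intro h
        exact absurd (Finset.mem_univ i) h
    · rw [Finset.sum_eq_zero]
      · apply MvPolynomial.coeff_eq_zero_of_totalDegree_lt
        refine lt_of_le_of_lt hP ?_
        by_contra hlt
        push Not at hlt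
        obtain ⟨i, hi⟩ : ∃ i, m i ≠ 0 := by
          by_contra hcon
          push Not at hcon
          exact h0 (Finsupp.ext hcon)
        apply h1
        refine ⟨i, ?_⟩
        have hmem : i ∈ m.support := Finsupp.mem_support_iff.2 hi
        rw [← Finset.add_sum_erase _ _ hmem] at hlt
        have hz : ∑ x ∈ m.support.erase i, m x = 0 := by omega
        ext j
        by_cases hj : j = i
        · subst hj
          rw [Finsupp.single_eq_same]
          omega
        · rw [Finsupp.single_eq_of_ne hj]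
          by_contra hne
          have hjm : j ∈ m.support.erase i :=
            Finset.mem_erase.2 ⟨hj, Finsupp.mem_support_iff.2 (Ne.symm hne)⟩
          exact hne ((Finset.sum_eq_zero_iff.1 hz j hjm).symm)
      · intro i _
        rw [if_neg]
        intro h
        exact h1 ⟨i, h⟩

theorem aff_lin {n : ℕ} (α β : ℚ) (v w : Fin (n + 1) → ℚ) :
    α • aff v + β • aff w = aff (fun a => α * v a + β * w a) := by
  unfold aff
  simp only [MvPolynomial.smul_eq_C_mul, MvPolynomial.C_add, MvPolynomial.C_mul, mul_add,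
    Finset.mul_sum, add_mul, Finset.sum_add_distrib]
  simp only [mul_assoc]
  ring

/-- the point of the line number `c` with parameter `t` -/
def pt (n : ℕ) (c t : ℚ) (i : Fin n) : ℚ :=
  c ^ ((i : ℕ) + 1) + t * c ^ ((n + 1) * ((i : ℕ) + 1))

/-- restriction to the line number `c` -/
noncomputable def line (n : ℕ) (c : ℚ) : MvPolynomial (Fin n) ℚ →ₐ[ℚ] ℚ[X] :=
  MvPolynomial.aeval fun i : Fin n =>
    C (c ^ ((n + 1) * ((i : ℕ) + 1))) * X + C (c ^ ((i : ℕ) + 1))

theorem eval_line (n : ℕ) (c t : ℚ) (P : MvPolynomial (Fin n) ℚ) :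
    (line n c P).eval t = MvPolynomial.eval (pt n c t) P := by
  unfold line
  have h : (Polynomial.aeval t).comp (MvPolynomial.aeval fun i : Fin n =>
      (C (c ^ ((n + 1) * ((i : ℕ) + 1))) * X + C (c ^ ((i : ℕ) + 1)) : ℚ[X]))
      = MvPolynomial.aeval (pt n c t) := by
    apply MvPolynomial.algHom_ext
    intro i
    rw [AlgHom.comp_apply, MvPolynomial.aeval_X, MvPolynomial.aeval_X]
    simp [pt]
    ring
  have h2 := DFunLike.congr_fun h P
  rw [AlgHom.comp_apply] at h2
  rw [MvPolynomial.aeval_eq_eval] at h2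
  rw [← h2]
  rfl

theorem natDegree_line_le (n : ℕ) (c : ℚ) (P : MvPolynomial (Fin n) ℚ) (D : ℕ)
    (hP : P.totalDegree ≤ D) : (line n c P).natDegree ≤ D := by
  have := MvPolynomial.aeval_natDegree_le (n := 1) P hP
    (fun i : Fin n => C (c ^ ((n + 1) * ((i : ℕ) + 1))) * X + C (c ^ ((i : ℕ) + 1)))
    (fun i => natDegree_linear_le)
  rwa [mul_one] at this

theorem line_aff (n : ℕ) (c : ℚ) (v : Fin (n + 1) → ℚ) :
    line n c (aff v) = C (∑ b : Fin n, v b.succ * c ^ ((n + 1) * ((b : ℕ) + 1))) * X
      + C (∑ a : Fin (n + 1), v a * c ^ (a : ℕ)) := by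
  unfold line aff
  rw [map_add, map_sum, MvPolynomial.aeval_C, Fin.sum_univ_succ]
  simp only [map_mul, MvPolynomial.aeval_C, MvPolynomial.aeval_X, Polynomial.algebraMap_eq,
    Fin.val_zero, pow_zero, mul_one, Fin.val_succ, map_add, map_sum, mul_add,
    Finset.sum_add_distrib, Finset.sum_mul]
  rw [add_left_comm]
  congr 1
  · refine Finset.sum_congr rfl fun i _ => ?_
    ring

theorem line_aff_zero (n : ℕ) (c : ℚ) (v : Fin (n + 1) → ℚ) (h : line n c (aff v) = 0) :
    ∑ a : Fin (n + 1), v a * c ^ (a : ℕ) = 0 ∧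
      ∑ b : Fin n, v b.succ * c ^ ((n + 1) * ((b : ℕ) + 1)) = 0 := by
  rw [line_aff] at h
  constructor
  · have := congrArg (fun p => coeff p 0) h
    simp only [coeff_add, mul_coeff_zero, coeff_X_zero, mul_zero, zero_add, coeff_C_zero,
      coeff_zero] at this
    exact this
  · have := congrArg (fun p => coeff p 1) h
    simp only [coeff_add, coeff_C_mul, coeff_X_one, mul_one, coeff_zero] at this
    rw [coeff_C, if_neg one_ne_zero, add_zero] at this
    exact this

/-- the polynomial in `c` of the first kind -/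
noncomputable def pe {n : ℕ} (v : Fin (n + 1) → ℚ) : ℚ[X] := ∑ a : Fin (n + 1), C (v a) * X ^ (a : ℕ)

/-- the polynomial in `c` of the second kind -/
noncomputable def ph {n : ℕ} (v : Fin (n + 1) → ℚ) : ℚ[X] :=
  ∑ b : Fin n, C (v b.succ) * X ^ ((n + 1) * ((b : ℕ) + 1))

theorem eval_pe {n : ℕ} (v : Fin (n + 1) → ℚ) (c : ℚ) :
    (pe v).eval c = ∑ a : Fin (n + 1), v a * c ^ (a : ℕ) := by
  unfold pe
  rw [eval_finsetSum]
  simp

theorem eval_ph {n : ℕ} (v : Fin (n + 1) → ℚ) (c : ℚ) :
    (ph v).eval c = ∑ b : Fin n, v b.succ * c ^ ((n + 1) * ((b : ℕ) + 1)) := by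
  unfold ph
  rw [eval_finsetSum]
  simp

theorem natDegree_pe {n : ℕ} (v : Fin (n + 1) → ℚ) : (pe v).natDegree ≤ n := by
  unfold pe
  refine natDegree_sum_le_of_forall_le _ _ fun a _ => ?_
  refine (natDegree_C_mul_X_pow_le _ _).trans ?_
  have := a.2
  omega

theorem natDegree_ph {n : ℕ} (v : Fin (n + 1) → ℚ) : (ph v).natDegree ≤ (n + 1) * n := by
  unfold ph
  refine natDegree_sum_le_of_forall_le _ _ fun b _ => ?_
  refine (natDegree_C_mul_X_pow_le _ _).trans ?_
  exact Nat.mul_le_mul_left _ b.2

theorem coeff_pe {n : ℕ} (v : Fin (n + 1) → ℚ) (a : Fin (n + 1)) : (pe v).coeff a = v a := by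
  unfold pe
  rw [finsetSum_coeff, Finset.sum_eq_single a]
  · simp
  · intro b _ hb
    rw [coeff_C_mul_X_pow, if_neg]
    intro h
    exact hb (Fin.ext h.symm)
  · intro h
    exact absurd (Finset.mem_univ a) h

theorem pe_ne_zero {n : ℕ} (v : Fin (n + 1) → ℚ) (h : v ≠ 0) : pe v ≠ 0 := by
  intro h0
  apply h
  funext a
  rw [← coeff_pe v a, h0]
  simp

theorem coeff_pe_ph {n : ℕ} (v w : Fin (n + 1) → ℚ) (a : Fin (n + 1)) (b : Fin n) :
    (pe v * ph w).coeff ((a : ℕ) + (n + 1) * ((b : ℕ) + 1)) = v a * w b.succ := by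
  classical
  unfold pe ph
  rw [Finset.sum_mul_sum, finsetSum_coeff, Finset.sum_eq_single a]
  · rw [finsetSum_coeff, Finset.sum_eq_single b]
    · have : (C (v a) * X ^ (a : ℕ) * (C (w b.succ) * X ^ ((n + 1) * ((b : ℕ) + 1))) : ℚ[X])
          = C (v a * w b.succ) * X ^ ((a : ℕ) + (n + 1) * ((b : ℕ) + 1)) := by
        rw [C_mul, pow_add]; ring
      rw [this, coeff_C_mul_X_pow, if_pos rfl]
    · intro b' _ hb'
      have : (C (v a) * X ^ (a : ℕ) * (C (w b'.succ) * X ^ ((n + 1) * ((b' : ℕ) + 1))) : ℚ[X])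
          = C (v a * w b'.succ) * X ^ ((a : ℕ) + (n + 1) * ((b' : ℕ) + 1)) := by
        rw [C_mul, pow_add]; ring
      rw [this, coeff_C_mul_X_pow, if_neg]
      intro h
      apply hb'
      have h2 : (n + 1) * ((b : ℕ) + 1) = (n + 1) * ((b' : ℕ) + 1) := by omega
      have h3 := Nat.eq_of_mul_eq_mul_left (Nat.succ_pos n) h2
      exact Fin.ext (by omega)
    · intro h
      exact absurd (Finset.mem_univ b) h
  · intro a' _ ha'
    rw [finsetSum_coeff]
    refine Finset.sum_eq_zero fun b' _ => ?_
    have : (C (v a') * X ^ (a' : ℕ) * (C (w b'.succ) * X ^ ((n + 1) * ((b' : ℕ) + 1))) : ℚ[X])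
        = C (v a' * w b'.succ) * X ^ ((a' : ℕ) + (n + 1) * ((b' : ℕ) + 1)) := by
      rw [C_mul, pow_add]; ring
    rw [this, coeff_C_mul_X_pow, if_neg]
    intro h
    apply ha'
    have h1 := congrArg (fun x => x % (n + 1)) h
    simp only [Nat.add_mul_mod_self_left] at h1
    rw [Nat.mod_eq_of_lt a.2, Nat.mod_eq_of_lt a'.2] at h1
    exact Fin.ext h1.symm
  · intro h
    exact absurd (Finset.mem_univ a) h

/-- For every pair of affine forms all but few lines are injective on their span. -/
theorem exists_poly {n : ℕ} (v w : Fin (n + 1) → ℚ) : ∃ q : ℚ[X], q ≠ 0 ∧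
    q.natDegree ≤ (n + 1) ^ 2 ∧ ∀ c : ℚ, q.eval c ≠ 0 → Inj2 (line n c) (aff v) (aff w) := by
  have hsmall : ∀ v : Fin (n + 1) → ℚ, (pe v).natDegree ≤ (n + 1) ^ 2 := by
    intro v
    refine (natDegree_pe v).trans ?_
    nlinarith
  -- a form and a multiple of it
  have hmul : ∀ (v : Fin (n + 1) → ℚ) (c : ℚ), v ≠ 0 → (pe v).eval c ≠ 0 → ∀ μ ν : ℚ,
      Inj2 (line n c) (aff (fun a => μ * v a)) (aff (fun a => ν * v a)) := by
    intro v c _ hc μ ν α β h
    rw [aff_lin] at h ⊢
    have h1 := (line_aff_zero n c _ h).1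
    have h2 : (α * μ + β * ν) * (pe v).eval c = 0 := by
      rw [eval_pe, Finset.mul_sum, ← h1]
      refine Finset.sum_congr rfl fun a _ => ?_
      ring
    have h3 : α * μ + β * ν = 0 := by
      rcases mul_eq_zero.1 h2 with h3 | h3
      · exact h3
      · exact absurd h3 hc
    have h4 : (fun a => α * (μ * v a) + β * (ν * v a)) = fun _ => (0 : ℚ) := by
      funext a
      linear_combination (v a) * h3
    rw [h4]
    simp [aff]
  by_cases hmin : ∀ (a : Fin (n + 1)) (b : Fin n), v a * w b.succ = w a * v b.succ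
  · -- dependent forms
    have hdep : (∃ μ : ℚ, w = fun a => μ * v a) ∨ (∃ μ : ℚ, v = fun a => μ * w a) := by
      by_cases hv : ∃ b : Fin n, v b.succ ≠ 0
      · obtain ⟨b, hb⟩ := hv
        left
        refine ⟨w b.succ / v b.succ, ?_⟩
        funext a
        have := hmin a b
        field_simp
        linear_combination -this
      · push Not at hv
        by_cases hw : ∃ b : Fin n, w b.succ ≠ 0
        · obtain ⟨b, hb⟩ := hw
          right
          refine ⟨v b.succ / w b.succ, ?_⟩
          funext a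
          have := hmin a b
          field_simp
          linear_combination this
        · push Not at hw
          by_cases hv0 : v 0 = 0
          · right
            refine ⟨0, ?_⟩
            funext a
            refine Fin.cases ?_ ?_ a
            · rw [hv0, zero_mul]
            · intro b
              rw [hv b, zero_mul]
          · left
            refine ⟨w 0 / v 0, ?_⟩
            funext a
            refine Fin.cases ?_ ?_ a
            · field_simp
            · intro b
              rw [hv b, hw b, mul_zero]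
    rcases hdep with ⟨μ, hμ⟩ | ⟨μ, hμ⟩
    · by_cases hv0 : v = 0
      · refine ⟨1, one_ne_zero, by simp, fun c _ α β _ => ?_⟩
        rw [hμ, hv0]
        simp [aff]
      · refine ⟨pe v, pe_ne_zero v hv0, hsmall v, fun c hc => ?_⟩
        have := hmul v c hv0 hc 1 μ
        rw [hμ]
        simpa using this
    · by_cases hw0 : w = 0
      · refine ⟨1, one_ne_zero, by simp, fun c _ α β _ => ?_⟩
        rw [hμ, hw0]
        simp [aff]
      · refine ⟨pe w, pe_ne_zero w hw0, hsmall w, fun c hc => ?_⟩
        have := hmul w c hw0 hc μ 1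
        rw [hμ]
        simpa using this
  · push Not at hmin
    obtain ⟨a, b, hab⟩ := hmin
    refine ⟨pe v * ph w - pe w * ph v, ?_, ?_, ?_⟩
    · intro h0
      have := congrArg (fun p => coeff p ((a : ℕ) + (n + 1) * ((b : ℕ) + 1))) h0
      simp only [coeff_sub, coeff_pe_ph, coeff_zero] at this
      exact hab (sub_eq_zero.1 this)
    · have hd : ∀ v w : Fin (n + 1) → ℚ, (pe v * ph w).natDegree ≤ (n + 1) ^ 2 := by
        intro v w
        refine natDegree_mul_le.trans ((Nat.add_le_add (natDegree_pe v) (natDegree_ph w)).trans ?_)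
        nlinarith
      exact (natDegree_sub_le _ _).trans (max_le (hd _ _) (hd _ _))
    · intro c hc α β h
      rw [aff_lin] at h ⊢
      obtain ⟨h1, h2⟩ := line_aff_zero n c _ h
      have e1 : α * (pe v).eval c + β * (pe w).eval c = 0 := by
        rw [eval_pe, eval_pe, Finset.mul_sum, Finset.mul_sum, ← Finset.sum_add_distrib, ← h1]
        refine Finset.sum_congr rfl fun a _ => ?_
        ring
      have e2 : α * (ph v).eval c + β * (ph w).eval c = 0 := by
        rw [eval_ph, eval_ph, Finset.mul_sum, Finset.mul_sum, ← Finset.sum_add_distrib, ← h2]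
        refine Finset.sum_congr rfl fun a _ => ?_
        ring
      rw [eval_sub, eval_mul, eval_mul] at hc
      have hα : α = 0 := by
        have : α * ((pe v).eval c * (ph w).eval c - (pe w).eval c * (ph v).eval c) = 0 := by
          linear_combination (ph w).eval c * e1 - (pe w).eval c * e2
        rcases mul_eq_zero.1 this with h3 | h3
        · exact h3
        · exact absurd h3 hc
      have hβ : β = 0 := by
        have : β * ((pe v).eval c * (ph w).eval c - (pe w).eval c * (ph v).eval c) = 0 := by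
          linear_combination (pe v).eval c * e2 - (ph v).eval c * e1
        rcases mul_eq_zero.1 this with h3 | h3
        · exact h3
        · exact absurd h3 hc
      rw [hα, hβ]
      simp [aff]

/-- a common non-root -/
theorem exists_nonroot {ι : Type*} [Fintype ι] (q : ι → ℚ[X]) (d : ℕ) (h0 : ∀ i, q i ≠ 0)
    (hd : ∀ i, (q i).natDegree ≤ d) :
    ∃ c : ℕ, c ≤ Fintype.card ι * d ∧ ∀ i, (q i).eval (c : ℚ) ≠ 0 := by
  classical
  set Q := ∏ i, q i with hQ
  have hQ0 : Q ≠ 0 := Finset.prod_ne_zero_iff.2 fun i _ => h0 i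
  have hQd : Q.natDegree ≤ Fintype.card ι * d := by
    refine (natDegree_prod_le _ _).trans ?_
    calc ∑ i, (q i).natDegree ≤ ∑ _i : ι, d := Finset.sum_le_sum fun i _ => hd i
      _ = Fintype.card ι * d := by simp
  by_contra hcon
  push Not at hcon
  have hroot : ∀ c ∈ Finset.range (Fintype.card ι * d + 1), (c : ℚ) ∈ Q.roots.toFinset := by
    intro c hc
    obtain ⟨i, hi⟩ := hcon c (Nat.lt_succ_iff.1 (Finset.mem_range.1 hc))
    rw [Multiset.mem_toFinset, mem_roots hQ0, IsRoot.def, hQ, eval_prod]
    exact Finset.prod_eq_zero (Finset.mem_univ i) hi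
  have hsub : (Finset.range (Fintype.card ι * d + 1)).image (fun c : ℕ => (c : ℚ))
      ⊆ Q.roots.toFinset := by
    intro x hx
    obtain ⟨c, hc, rfl⟩ := Finset.mem_image.1 hx
    exact hroot c hc
  have h1 := Finset.card_le_card hsub
  rw [Finset.card_image_of_injective _ Nat.cast_injective, Finset.card_range] at h1
  have h2 := (Multiset.toFinset_card_le Q.roots).trans (card_roots' Q)
  omega

end Pool.Agent.W2helper58.HP
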