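import Pool.Agent.W2helper58.HP.Lines

/-!
# Networks of sums of high powers: all nonzero outputs are nonzero on one explicit line
-/

open Polynomial

namespace Pool.Agent.W2helper58.HP

theorem cls_affine {n : ℕ} {ι : Type*} [Fintype ι] (E : ℕ) (u B : ι → MvPolynomial (Fin n) ℚ)
    (hB : ∀ i, ∃ v, B i = aff v) (j : ι) : ∃ v, cls ℚ E u B j = aff v := by
  choose v hv using hB
  refine ⟨fun a => ∑ i, fac ℚ (u i) (u j) ^ E * v i a, ?_⟩
  unfold cls
  have h : ∀ (s : Finset ι), ∑ i ∈ s, fac ℚ (u i) (u j) ^ E • B i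
      = aff (fun a => ∑ i ∈ s, fac ℚ (u i) (u j) ^ E * v i a) := by
    classical
    intro s
    induction s using Finset.induction with
    | empty => simp [aff]
    | insert i s hi ih =>
      rw [Finset.sum_insert hi, ih, hv i]
      have := aff_lin (fac ℚ (u i) (u j) ^ E) 1 (v i)
        (fun a => ∑ i ∈ s, fac ℚ (u i) (u j) ^ E * v i a)
      rw [one_smul] at this
      rw [this]
      congr 1
      funext a
      rw [Finset.sum_insert hi, one_mul]
  exact h Finset.univ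

theorem natDegree_line_aff (n : ℕ) (c : ℚ) (v : Fin (n + 1) → ℚ) :
    (line n c (aff v)).natDegree ≤ 1 := by
  rw [line_aff]
  exact natDegree_linear_le

theorem one_aff {n : ℕ} : ∃ v, (1 : MvPolynomial (Fin n) ℚ) = aff v := by
  refine ⟨Fin.cons 1 (fun _ => 0), ?_⟩
  simp [aff]

theorem zero_aff {n : ℕ} : ∃ v, (0 : MvPolynomial (Fin n) ℚ) = aff v := by
  refine ⟨fun _ => 0, ?_⟩
  simp [aff]

/-- One explicit line is good for all pairs of gates of the same layer. -/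
theorem exists_line (n s m Δ : ℕ) (k E : ℕ → ℕ) (hE : ∀ r, 4 * k r ^ 2 ≤ E r)
    (L : Fin s → Fin m → MvPolynomial (Fin n) ℚ) (hL : ∀ j i, (L j i).totalDegree ≤ 1)
    (g : ℕ → Fin s → MvPolynomial (Fin n) ℚ) (h0 : ∀ j, g 0 j = ∏ i, L j i)
    (hg : ∀ r < Δ, ∀ j, ∃ (A : Fin (k r) → MvPolynomial (Fin n) ℚ) (u : Fin (k r) → Fin s),
      (∀ i, (A i).totalDegree ≤ 1) ∧ g (r + 1) j = ∑ i, A i * g r (u i) ^ E r) :
    ∃ c : ℕ, c ≤ ((s * m + 1) ^ 2 + 2 * s ^ 2 * ∑ r ∈ Finset.range Δ, k r) * (n + 1) ^ 2 ∧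
      ∀ r ≤ Δ, ∀ i j : Fin s, Inj2 (line n (c : ℚ)) (g r i) (g r j) := by
  classical
  -- the bottom forms together with 1
  let F0 : Option (Fin s × Fin m) → MvPolynomial (Fin n) ℚ := fun o =>
    o.elim 1 (fun p => L p.1 p.2)
  have hF0 : ∀ o, ∃ v, F0 o = aff v := by
    intro o
    rcases o with _ | p
    · exact one_aff
    · exact exists_aff _ (hL _ _)
  -- the gates
  have hg' : ∀ (r : Fin Δ) (j : Fin s), ∃ (A : Fin (k r) → MvPolynomial (Fin n) ℚ)
      (u : Fin (k r) → Fin s),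
      (∀ i, (A i).totalDegree ≤ 1) ∧ g (r + 1) j = ∑ i, A i * g r (u i) ^ E r :=
    fun r j => hg r r.2 j
  choose A u hA hgate using hg'
  -- the pairs of class sums
  let PL : (Σ r : Fin Δ, (Fin s × Fin s) × (Fin (k r) ⊕ Fin (k r))) →
      MvPolynomial (Fin n) ℚ := fun x =>
    pairL ℚ (E x.1) (fun i => g x.1 (u x.1 x.2.1.1 i)) (fun i => g x.1 (u x.1 x.2.1.2 i))
      (A x.1 x.2.1.1) x.2.2
  let PR : (Σ r : Fin Δ, (Fin s × Fin s) × (Fin (k r) ⊕ Fin (k r))) →
      MvPolynomial (Fin n) ℚ := fun x =>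
    pairR ℚ (E x.1) (fun i => g x.1 (u x.1 x.2.1.1 i)) (fun i => g x.1 (u x.1 x.2.1.2 i))
      (A x.1 x.2.1.2) x.2.2
  have hPL : ∀ x, ∃ v, PL x = aff v := by
    intro x
    refine cls_affine _ _ _ ?_ _
    intro i
    rcases i with i | i
    · exact exists_aff _ (hA _ _ _)
    · exact zero_aff
  have hPR : ∀ x, ∃ v, PR x = aff v := by
    intro x
    refine cls_affine _ _ _ ?_ _
    intro i
    rcases i with i | i
    · exact zero_aff
    · exact exists_aff _ (hA _ _ _)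
  -- the index set of all pairs
  let ι := (Option (Fin s × Fin m) × Option (Fin s × Fin m)) ⊕
    (Σ r : Fin Δ, (Fin s × Fin s) × (Fin (k r) ⊕ Fin (k r)))
  have hq : ∀ x : ι, ∃ q : ℚ[X], q ≠ 0 ∧ q.natDegree ≤ (n + 1) ^ 2 ∧
      ∀ c : ℚ, q.eval c ≠ 0 → Inj2 (line n c) (Sum.elim (fun p => F0 p.1) PL x)
        (Sum.elim (fun p => F0 p.2) PR x) := by
    intro x
    rcases x with p | x
    · obtain ⟨v, hv⟩ := hF0 p.1
      obtain ⟨w, hw⟩ := hF0 p.2
      simp only [Sum.elim_inl]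
      rw [hv, hw]
      exact exists_poly v w
    · obtain ⟨v, hv⟩ := hPL x
      obtain ⟨w, hw⟩ := hPR x
      simp only [Sum.elim_inr]
      rw [hv, hw]
      exact exists_poly v w
  choose q hq0 hqd hq using hq
  obtain ⟨c, hc, hroot⟩ := exists_nonroot q ((n + 1) ^ 2) hq0 hqd
  have hcard : Fintype.card ι = (s * m + 1) ^ 2 + 2 * s ^ 2 * ∑ r ∈ Finset.range Δ, k r := by
    simp only [ι, Fintype.card_sum, Fintype.card_prod, Fintype.card_option, Fintype.card_fin,
      Fintype.card_sigma]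
    rw [Finset.sum_range (fun r => k r), Finset.mul_sum, sq]
    congr 1
    refine Finset.sum_congr rfl fun r _ => ?_
    ring
  rw [hcard] at hc
  set φ := line n (c : ℚ) with hφ
  have hinj : ∀ x : ι, Inj2 φ (Sum.elim (fun p => F0 p.1) PL x)
      (Sum.elim (fun p => F0 p.2) PR x) := fun x => hq x c (hroot x)
  -- induction over the layers
  have hlayers : ∀ r ≤ Δ, ∀ i j : Fin s, Inj2 φ (g r i) (g r j) := by
    intro r
    induction r with
    | zero =>
      intro _ i j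
      have hprod : ∀ j, g 0 j = (Finset.univ.val.map (fun i => L j i)).prod := by
        intro j
        rw [h0 j]
        rfl
      rw [hprod i, hprod j]
      refine prod_inj2 φ (Set.range F0) ⟨none, rfl⟩ ?_ ?_ _ _ ?_ ?_
      · rintro _ ⟨x, rfl⟩ _ ⟨y, rfl⟩
        exact hinj (Sum.inl (x, y))
      · rintro _ ⟨x, rfl⟩
        obtain ⟨v, hv⟩ := hF0 x
        rw [hv]
        exact natDegree_line_aff _ _ _
      · intro y hy
        obtain ⟨x, _, rfl⟩ := Multiset.mem_map.1 hy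
        exact ⟨some (i, x), rfl⟩
      · intro y hy
        obtain ⟨x, _, rfl⟩ := Multiset.mem_map.1 hy
        exact ⟨some (j, x), rfl⟩
    | succ r ih =>
      intro hr i j
      have ih' := ih (by omega)
      have hi := hgate ⟨r, hr⟩ i
      have hj := hgate ⟨r, hr⟩ j
      simp only at hi hj
      rw [hi, hj]
      rcases Nat.eq_zero_or_pos (k r) with hk | hk
      · intro α β _
        have e1 : ∀ (f : Fin (k r) → MvPolynomial (Fin n) ℚ), ∑ i, f i = 0 := by
          intro f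
          refine Finset.sum_eq_zero fun i _ => ?_
          have := i.2
          omega
        rw [e1, e1]
        simp
      · refine layer2 φ 1 (E r) (fun i' => g r (u ⟨r, hr⟩ i i')) (fun i' => g r (u ⟨r, hr⟩ j i'))
          (A ⟨r, hr⟩ i) (A ⟨r, hr⟩ j) ?_ ?_ ?_ ?_
        · have h1 := hE r
          obtain ⟨κ, hκ⟩ : ∃ κ, k r = κ + 1 := ⟨k r - 1, by omega⟩
          rw [hκ] at h1 ⊢
          have h2 : 2 * (κ + 1) - 2 = 2 * κ := by omega
          have h3 : 2 * (κ + 1) - 1 = 2 * κ + 1 := by omega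
          rw [h2, h3]
          nlinarith
        · intro a b
          rcases a with a | a <;> rcases b with b | b <;> exact ih' _ _
        · intro α β t
          obtain ⟨v, hv⟩ := hPL ⟨⟨r, hr⟩, (i, j), t⟩
          obtain ⟨w, hw⟩ := hPR ⟨⟨r, hr⟩, (i, j), t⟩
          simp only [PL, PR] at hv hw
          rw [hv, hw, aff_lin]
          exact natDegree_line_aff _ _ _
        · intro t
          exact hinj (Sum.inr ⟨⟨r, hr⟩, (i, j), t⟩)
  exact ⟨c, hc, hlayers⟩

/-- Main theorem. -/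
theorem main (n s m Δ D : ℕ) (k E : ℕ → ℕ) (hE : ∀ r, 4 * k r ^ 2 ≤ E r)
    (L : Fin s → Fin m → MvPolynomial (Fin n) ℚ) (hL : ∀ j i, (L j i).totalDegree ≤ 1)
    (g : ℕ → Fin s → MvPolynomial (Fin n) ℚ) (h0 : ∀ j, g 0 j = ∏ i, L j i)
    (hg : ∀ r < Δ, ∀ j, ∃ (A : Fin (k r) → MvPolynomial (Fin n) ℚ) (u : Fin (k r) → Fin s),
      (∀ i, (A i).totalDegree ≤ 1) ∧ g (r + 1) j = ∑ i, A i * g r (u i) ^ E r)
    (e : ℕ → Fin s → ℕ) (f : MvPolynomial (Fin n) ℚ)
    (hf : f = ∏ r ∈ Finset.range (Δ + 1), ∏ j, g r j ^ e r j)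
    (hne : f ≠ 0) (hD : f.totalDegree ≤ D) :
    ∃ c ≤ ((s * m + 1) ^ 2 + 2 * s ^ 2 * ∑ r ∈ Finset.range Δ, k r) * (n + 1) ^ 2, ∃ t ≤ D,
      MvPolynomial.eval (pt n (c : ℚ) (t : ℚ)) f ≠ 0 := by
  obtain ⟨c, hc, hinj⟩ := exists_line n s m Δ k E hE L hL g h0 hg
  set φ := line n (c : ℚ) with hφ
  have hφne : φ f ≠ 0 := by
    rw [hf] at hne ⊢
    rw [map_prod]
    simp only [map_prod, map_pow]
    rw [Finset.prod_ne_zero_iff] at hne ⊢
    intro r hr
    have h1 := hne r hr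
    rw [Finset.prod_ne_zero_iff] at h1 ⊢
    intro j hj
    have h2 := h1 j hj
    by_cases he : e r j = 0
    · rw [he, pow_zero]
      exact one_ne_zero
    · apply pow_ne_zero
      intro h3
      apply h2
      rw [(hinj r (Nat.lt_succ_iff.1 (Finset.mem_range.1 hr)) j j).left h3, zero_pow he]
  have hdeg : (φ f).natDegree ≤ D := natDegree_line_le n c _ D hD
  refine ⟨c, hc, ?_⟩
  obtain ⟨t, ht, htr⟩ := exists_nonroot (fun _ : Unit => φ f) D (fun _ => hφne)
    (fun _ => hdeg)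
  refine ⟨t, by simpa using ht, ?_⟩
  have := htr ()
  rwa [eval_line] at this

end Pool.Agent.W2helper58.HP
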