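import Pool.Agent.R864.PolyPow

/-!
# Sums of high powers with low-degree multipliers

If `∑ i, B i * C i ^ E = 0` over a field of characteristic zero, the `C i` are nonzero and
pairwise non-proportional, the `B i` have degree at most `a`, and `E` is large compared with the
number `q` of terms, namely `q * (q - 2) + (q - 1) * a < E`, then all `B i` vanish.
-/

open Polynomial Matrix

namespace Pool.Agent.W2helper58.HP

variable {K : Type*} [Field K] [CharZero K]

omit [CharZero K] in
theorem prod_dvd_det {r : ℕ} (M : Matrix (Fin r) (Fin r) K[X]) (d : Fin r → K[X])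
    (h : ∀ i k, d i ∣ M i k) : ∏ i, d i ∣ M.det := by
  rw [Matrix.det_apply]
  refine Finset.dvd_sum fun σ _ => ?_
  have h1 : ∏ i, d i ∣ ∏ i, M (σ i) i := by
    rw [← Equiv.prod_comp σ d]
    exact Finset.prod_dvd_prod_of_dvd _ _ fun i _ => h _ _
  rcases Int.units_eq_one_or (Equiv.Perm.sign σ) with h2 | h2
  · rw [h2, one_smul]; exact h1
  · rw [h2, Units.neg_smul, one_smul]; exact (dvd_neg).2 h1

/-- core step, coprime case -/
theorem core (r a E : ℕ) (hr : 1 ≤ r) (f b : Fin (r + 1) → K[X]) (hf : ∀ i, f i ≠ 0)
    (hb : ∀ i, (b i).natDegree ≤ a) (hE : (r + 1) * (r - 1) + r * a < E)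
    (hli : ∀ i0 : Fin (r + 1),
      LinearIndependent K (fun i : Fin r => b (i0.succAbove i) * f (i0.succAbove i) ^ E))
    (hrel : ∑ i, b i * f i ^ E = 0) (hcop : Ideal.span (Set.range f) = ⊤) :
    ∀ i, (f i).natDegree = 0 := by
  classical
  obtain ⟨i0, _, hi0⟩ := Finset.exists_max_image (Finset.univ : Finset (Fin (r + 1)))
    (fun i => (f i).natDegree) Finset.univ_nonempty
  have hmax : ∀ i, (f i).natDegree ≤ (f i0).natDegree := fun i => hi0 i (Finset.mem_univ i)
  set T : Fin (r + 1) → K[X] := fun i => b i * f i ^ E with hT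
  set e : ℕ := E - (r - 1) with he
  set D : Fin (r + 1) → K[X] := fun i => f i ^ e with hD
  set M : Matrix (Fin r) (Fin r) K[X] :=
    Matrix.of fun (i j : Fin r) => derivative^[(j : ℕ)] (T (i0.succAbove i)) with hM
  have hW : M.det ≠ 0 := R864.PolyPow.wr_ne_zero r _ (hli i0)
  have hdvdT : ∀ (i : Fin (r + 1)) (j : Fin r), D i ∣ derivative^[(j : ℕ)] (T i) := by
    intro i j
    have h1 : f i ^ E ∣ T i := Dvd.intro_left _ rfl
    have h2 := pow_sub_dvd_iterate_derivative_of_pow_dvd (j : ℕ) h1
    exact (pow_dvd_pow _ (by have := j.2; omega)).trans h2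
  -- divisibility of `W` by the products with one factor omitted
  have hdiv : ∀ j : Fin (r + 1), ∏ i ∈ Finset.univ.erase j, D i ∣ M.det := by
    have hsucc : ∀ (j : Fin (r + 1)) (g : Fin (r + 1) → K[X]),
        ∏ i ∈ Finset.univ.erase j, g i = ∏ i : Fin r, g (j.succAbove i) := by
      intro j g
      have h1 : (Finset.univ.erase j : Finset (Fin (r + 1)))
          = Finset.univ.map (j.succAboveEmb) := by
        ext x
        simp only [Finset.mem_erase, Finset.mem_univ, and_true, Finset.mem_map, true_and,
          Fin.coe_succAboveEmb]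
        exact ⟨fun h => Fin.exists_succAbove_eq h, fun ⟨y, hy⟩ => hy ▸ Fin.succAbove_ne _ _⟩
      rw [h1, Finset.prod_map]
      rfl
    intro j
    by_cases hj : j = i0
    · subst hj
      rw [hsucc]
      exact prod_dvd_det _ _ fun i k => hdvdT _ _
    · obtain ⟨l, hl⟩ := Fin.exists_succAbove_eq hj
      have hrow : (fun k : Fin r => derivative^[(k : ℕ)] (T i0))
          = ∑ k, (-1 : K[X]) • M k := by
        funext k
        have h1 : T i0 = -∑ i : Fin r, T (i0.succAbove i) := by
          have h2 : ∑ i, T i = 0 := hrel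
          rw [Fin.sum_univ_succAbove _ i0] at h2
          linear_combination h2
        rw [h1, iterate_derivative_neg, Polynomial.iterate_derivative_sum, Finset.sum_apply]
        rw [← Finset.sum_neg_distrib]
        refine Finset.sum_congr rfl fun i _ => ?_
        simp [hM]
      have hdet : (M.updateRow l (fun k : Fin r => derivative^[(k : ℕ)] (T i0))).det
          = -M.det := by
        rw [hrow, Matrix.det_updateRow_sum M l (fun _ => (-1 : K[X]))]
        simp
      have h3 : ∏ i : Fin r, (if i = l then D i0 else D (i0.succAbove i))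
          ∣ (M.updateRow l (fun k : Fin r => derivative^[(k : ℕ)] (T i0))).det := by
        refine prod_dvd_det _ _ fun i k => ?_
        by_cases hil : i = l
        · subst hil
          rw [if_pos rfl, Matrix.updateRow_self]
          exact hdvdT _ _
        · rw [if_neg hil, Matrix.updateRow_ne hil]
          exact hdvdT _ _
      rw [hdet, dvd_neg] at h3
      refine dvd_trans (dvd_of_eq ?_) h3
      -- product identity
      have h4 : D j * ∏ i ∈ Finset.univ.erase j, D i
          = D j * ∏ i : Fin r, (if i = l then D i0 else D (i0.succAbove i)) := by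
        rw [Finset.mul_prod_erase _ _ (Finset.mem_univ j), Fin.prod_univ_succAbove _ i0]
        rw [← Finset.mul_prod_erase Finset.univ _ (Finset.mem_univ l)]
        rw [← Finset.mul_prod_erase Finset.univ
          (fun i => if i = l then D i0 else D (i0.succAbove i)) (Finset.mem_univ l)]
        rw [if_pos rfl, hl]
        have h5 : ∏ x ∈ Finset.univ.erase l, (if x = l then D i0 else D (i0.succAbove x))
            = ∏ x ∈ Finset.univ.erase l, D (i0.succAbove x) := by
          refine Finset.prod_congr rfl fun x hx => ?_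
          rw [if_neg (Finset.ne_of_mem_erase hx)]
        rw [h5]
        ring
      exact mul_left_cancel₀ (pow_ne_zero _ (hf j)) h4
  -- the full product divides `W`
  have hP : ∏ i, D i ∣ M.det := by
    have htop : Ideal.span ((fun x => x ^ e) '' (Set.range f)) = ⊤ :=
      Ideal.span_pow_eq_top _ hcop e
    have hle : Ideal.span ((fun x => x ^ e) '' (Set.range f)) ≤
        Submodule.comap (LinearMap.toSpanSingleton K[X] K[X] M.det)
          (Ideal.span {∏ i, D i}) := by
      rw [Ideal.span_le]
      rintro _ ⟨_, ⟨j, rfl⟩, rfl⟩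
      simp only [SetLike.mem_coe, Submodule.mem_comap, LinearMap.toSpanSingleton_apply,
        smul_eq_mul]
      rw [Ideal.mem_span_singleton, ← Finset.mul_prod_erase _ _ (Finset.mem_univ j)]
      exact mul_dvd_mul_left _ (hdiv j)
    rw [htop] at hle
    have h7 : (1 : K[X]) ∈ Submodule.comap (LinearMap.toSpanSingleton K[X] K[X] M.det)
      (Ideal.span {∏ i, D i}) := hle Submodule.mem_top
    simp only [Submodule.mem_comap, LinearMap.toSpanSingleton_apply, smul_eq_mul, one_mul] at h7
    exact Ideal.mem_span_singleton.1 h7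
  -- degrees
  have hdegP : (∏ i, D i).natDegree = ∑ i, e * (f i).natDegree := by
    rw [natDegree_prod _ _ fun i _ => pow_ne_zero _ (hf i)]
    refine Finset.sum_congr rfl fun i _ => ?_
    rw [natDegree_pow]
  have hdegW : M.det.natDegree ≤ ∑ i : Fin r, (a + E * (f (i0.succAbove i)).natDegree) := by
    refine R864.PolyPow.natDegree_det_le _ _ fun i j => ?_
    refine (natDegree_iterate_derivative _ _).trans ((Nat.sub_le _ _).trans ?_)
    refine natDegree_mul_le.trans ?_
    rw [natDegree_pow]
    exact Nat.add_le_add_right (hb _) _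
  have hle := (natDegree_le_of_dvd hP hW).trans hdegW
  rw [hdegP, Fin.sum_univ_succAbove _ i0, Finset.sum_add_distrib, Finset.sum_const,
    Finset.card_univ, Fintype.card_fin, ← Finset.mul_sum, ← Finset.mul_sum] at hle
  set S := ∑ i : Fin r, (f (i0.succAbove i)).natDegree with hS
  have hSle : S ≤ r * (f i0).natDegree := by
    calc S ≤ ∑ _i : Fin r, (f i0).natDegree := Finset.sum_le_sum fun i _ => hmax _
      _ = r * (f i0).natDegree := by simp
  have hz : (f i0).natDegree = 0 := by
    by_contra hne
    set d0 := (f i0).natDegree with hd0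
    have hpos : 1 ≤ d0 := Nat.pos_of_ne_zero hne
    obtain ⟨s, rfl⟩ : ∃ s, r = s + 1 := ⟨r - 1, by omega⟩
    have hsE : s ≤ E := by
      have : (s + 1 + 1) * (s + 1 - 1) = s * s + 2 * s := by
        simp only [Nat.add_sub_cancel]; ring
      nlinarith
    have heE : e + s = E := by omega
    simp only [Nat.add_sub_cancel, smul_eq_mul] at hE hle
    -- e * d0 + e * S ≤ (s+1) * a + E * S
    have h1 : e * d0 ≤ (s + 1) * a + s * S := by
      have : E * S = e * S + s * S := by rw [← heE]; ring
      omega
    have h2 : E * d0 ≤ (s + 1) * a + s * (S + d0) := by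
      have : E * d0 = e * d0 + s * d0 := by rw [← heE]; ring
      rw [this]
      nlinarith
    have h3 : s * (S + d0) ≤ s * ((s + 1 + 1) * d0) := by
      apply Nat.mul_le_mul_left
      nlinarith
    have h4 : (s + 1) * a ≤ (s + 1) * a * d0 := Nat.le_mul_of_pos_right _ hpos
    have h5 : E * d0 ≤ ((s + 1 + 1) * s + (s + 1) * a) * d0 := by
      calc E * d0 ≤ (s + 1) * a + s * (S + d0) := h2
        _ ≤ (s + 1) * a * d0 + s * ((s + 1 + 1) * d0) := Nat.add_le_add h4 h3
        _ = ((s + 1 + 1) * s + (s + 1) * a) * d0 := by ring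
    have h6 := Nat.le_of_mul_le_mul_right h5 hpos
    omega
  intro i
  have := hmax i
  omega

omit [CharZero K] in
theorem exists_gcd_fam {r : ℕ} (f : Fin (r + 1) → K[X]) (hf : f 0 ≠ 0) :
    ∃ (G : K[X]) (f' : Fin (r + 1) → K[X]), G ≠ 0 ∧ (∀ i, f i = G * f' i) ∧
      Ideal.span (Set.range f') = ⊤ := by
  obtain ⟨G, f0', f', hG, h0, hf', hcop⟩ := R864.PolyPow.exists_gcd_family f (f 0) hf
  refine ⟨G, f', hG, hf', ?_⟩
  have h1 : f0' = f' 0 := by
    apply mul_left_cancel₀ hG
    rw [← h0, ← hf' 0]
  rw [h1, Set.insert_eq_of_mem (Set.mem_range_self (f := f') 0)] at hcop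
  exact (Ideal.eq_top_iff_one _).2 hcop

/-- High powers of pairwise non-proportional polynomials are independent, even over
multipliers of low degree. -/
theorem indep (a E : ℕ) : ∀ (q : ℕ) (f b : Fin q → K[X]), (∀ i, f i ≠ 0) →
    (∀ i j, i ≠ j → ∀ μ : K, f i ≠ C μ * f j) → (∀ i, (b i).natDegree ≤ a) →
    q * (q - 2) + (q - 1) * a < E → ∑ i, b i * f i ^ E = 0 → ∀ i, b i = 0 := by
  intro q
  induction q with
  | zero => intro f b _ _ _ _ _ i; exact i.elim0
  | succ r ih =>
    intro f b hf hpair hb hE hrel
    by_contra hcon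
    push Not at hcon
    obtain ⟨i1, hi1⟩ := hcon
    rcases Nat.eq_zero_or_pos r with hr | hr
    · subst hr
      rw [Fin.sum_univ_one] at hrel
      have : i1 = 0 := Fin.ext (by have := i1.2; simp only [Fin.val_zero]; omega)
      rw [this] at hi1
      exact (mul_ne_zero hi1 (pow_ne_zero _ (hf 0))) hrel
    have hE' : r * (r - 2) + (r - 1) * a < E := by
      refine lt_of_le_of_lt ?_ hE
      refine Nat.add_le_add (Nat.mul_le_mul (by omega) (by omega)) (Nat.mul_le_mul_right _ (by omega))
    -- all `b i` are nonzero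
    have hball : ∀ i, b i ≠ 0 := by
      intro i0 h0
      obtain ⟨i1', hi1'⟩ := Fin.exists_succAbove_eq (show i1 ≠ i0 from fun h => hi1 (h ▸ h0))
      have h1 := ih (fun i => f (i0.succAbove i)) (fun i => b (i0.succAbove i))
        (fun i => hf _) (fun i j hij μ => hpair _ _ (fun h => hij (Fin.succAbove_right_injective h)) μ)
        (fun i => hb _) hE' (by
          rw [Fin.sum_univ_succAbove _ i0, h0, zero_mul, zero_add] at hrel
          exact hrel) i1'
      rw [hi1'] at h1
      exact hi1 h1
    -- proper subfamilies are independent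
    have hli : ∀ i0 : Fin (r + 1),
        LinearIndependent K (fun i : Fin r => b (i0.succAbove i) * f (i0.succAbove i) ^ E) := by
      intro i0
      rw [Fintype.linearIndependent_iff]
      intro c hc i
      have h1 := ih (fun i => f (i0.succAbove i)) (fun i => C (c i) * b (i0.succAbove i))
        (fun i => hf _) (fun i j hij μ => hpair _ _ (fun h => hij (Fin.succAbove_right_injective h)) μ)
        (fun i => (natDegree_C_mul_le _ _).trans (hb _)) hE' (by
          rw [← hc]
          refine Finset.sum_congr rfl fun i _ => ?_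
          rw [smul_eq_C_mul, mul_assoc]) i
      rcases mul_eq_zero.1 h1 with h2 | h2
      · exact C_eq_zero.1 h2
      · exact absurd h2 (hball _)
    obtain ⟨G, f', hG, hf', hcop⟩ := exists_gcd_fam f (hf 0)
    have hf'0 : ∀ i, f' i ≠ 0 := by
      intro i h
      apply hf i
      rw [hf' i, h, mul_zero]
    have hGE : G ^ E ≠ 0 := pow_ne_zero _ hG
    have hdeg := core r a E hr f' b hf'0 hb (by
        have : (r + 1) * (r + 1 - 2) + (r + 1 - 1) * a = (r + 1) * (r - 1) + r * a := by
          rfl
        omega) (by
        intro i0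
        rw [Fintype.linearIndependent_iff]
        intro c hc
        apply Fintype.linearIndependent_iff.1 (hli i0) c
        have h1 : ∑ i, c i • (b (i0.succAbove i) * f (i0.succAbove i) ^ E)
            = G ^ E * ∑ i, c i • (b (i0.succAbove i) * f' (i0.succAbove i) ^ E) := by
          rw [Finset.mul_sum]
          refine Finset.sum_congr rfl fun i _ => ?_
          rw [hf' (i0.succAbove i), mul_pow, mul_smul_comm]
          congr 1
          ring
        rw [h1, hc, mul_zero]) (by
        apply mul_left_cancel₀ hGE
        rw [mul_zero, ← hrel, Finset.mul_sum]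
        refine Finset.sum_congr rfl fun i _ => ?_
        rw [hf' i, mul_pow]
        ring) hcop
    have h01 : (0 : Fin (r + 1)) ≠ (Fin.last r) := by
      intro h
      have := congrArg Fin.val h
      simp at this
      omega
    obtain ⟨x, hx⟩ := natDegree_eq_zero.1 (hdeg 0)
    obtain ⟨y, hy⟩ := natDegree_eq_zero.1 (hdeg (Fin.last r))
    have hy0 : y ≠ 0 := by
      intro h
      apply hf'0 (Fin.last r)
      rw [← hy, h, C_0]
    apply hpair 0 (Fin.last r) h01 (x / y)
    rw [hf' 0, hf' (Fin.last r), ← hx, ← hy]
    have : (C (x / y) : K[X]) * C y = C x := by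
      rw [← C_mul, div_mul_cancel₀ _ hy0]
    rw [mul_left_comm, this]

end Pool.Agent.W2helper58.HP
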