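import Pool.Agent.W2helper58.HP.Lines

/-!
# Networks of sums of high powers over sparse polynomials
-/

open Polynomial

namespace Pool.Agent.W2helper58.HP

/-- the substitution `x_i = t ^ ((d + 1) ^ i mod p)` -/
noncomputable def subst (n d p : ℕ) : MvPolynomial (Fin n) ℚ →ₐ[ℚ] ℚ[X] :=
  MvPolynomial.aeval fun i : Fin n => (X : ℚ[X]) ^ ((d + 1) ^ (i : ℕ) % p)

theorem eval_subst (n d p : ℕ) (t : ℚ) (P : MvPolynomial (Fin n) ℚ) :
    (subst n d p P).eval t
      = MvPolynomial.eval (fun i : Fin n => t ^ ((d + 1) ^ (i : ℕ) % p)) P := by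
  unfold subst
  have h : (Polynomial.aeval t).comp (MvPolynomial.aeval fun i : Fin n =>
      ((X : ℚ[X]) ^ ((d + 1) ^ (i : ℕ) % p)))
      = MvPolynomial.aeval (fun i : Fin n => t ^ ((d + 1) ^ (i : ℕ) % p)) := by
    apply MvPolynomial.algHom_ext
    intro i
    rw [AlgHom.comp_apply, MvPolynomial.aeval_X, MvPolynomial.aeval_X]
    simp
  have h2 := DFunLike.congr_fun h P
  rw [AlgHom.comp_apply] at h2
  rw [MvPolynomial.aeval_eq_eval] at h2
  rw [← h2]
  rfl

theorem natDegree_subst_le (n d p : ℕ) (hp : 1 ≤ p) (P : MvPolynomial (Fin n) ℚ) (D : ℕ)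
    (hP : P.totalDegree ≤ D) : (subst n d p P).natDegree ≤ D * p := by
  refine MvPolynomial.aeval_natDegree_le (n := p) P hP _ (fun i => ?_)
  rw [natDegree_X_pow]
  exact (Nat.mod_lt _ hp).le

/-- the value of an exponent vector in base `d + 1` -/
def val {n : ℕ} (d : ℕ) (a : Fin n →₀ ℕ) : ℕ := ∑ i, a i * (d + 1) ^ (i : ℕ)

theorem val_inj {n d : ℕ} {a b : Fin n →₀ ℕ} (ha : ∀ i, a i ≤ d) (hb : ∀ i, b i ≤ d)
    (h : val d a = val d b) : a = b := by
  have h1 : finFunctionFinEquiv (fun i => (⟨a i, Nat.lt_succ_of_le (ha i)⟩ : Fin (d + 1)))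
      = finFunctionFinEquiv (fun i => (⟨b i, Nat.lt_succ_of_le (hb i)⟩ : Fin (d + 1))) := by
    apply Fin.ext
    rw [finFunctionFinEquiv_apply, finFunctionFinEquiv_apply]
    exact h
  have h2 := finFunctionFinEquiv.injective h1
  ext i
  have := congrFun h2 i
  simpa using this

theorem val_lt {n d : ℕ} {a : Fin n →₀ ℕ} (ha : ∀ i, a i ≤ d) : val d a < (d + 1) ^ n := by
  have := (finFunctionFinEquiv (fun i => (⟨a i, Nat.lt_succ_of_le (ha i)⟩ : Fin (d + 1)))).2
  rw [finFunctionFinEquiv_apply] at this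
  exact this

/-- a good modulus -/
theorem exists_modulus {n d N : ℕ} (M : Finset (Fin n →₀ ℕ)) (hM : M.card ≤ N)
    (hd : ∀ a ∈ M, ∀ i, a i ≤ d) :
    ∃ p : ℕ, 1 ≤ p ∧ p ≤ 2 * (n * N ^ 2 * (Nat.log 2 (d + 1) + 1) + 2) ∧
      ∀ a ∈ M, ∀ b ∈ M, val d a % p = val d b % p → a = b := by
  classical
  set Q := n * N ^ 2 * (Nat.log 2 (d + 1) + 1) + 2 with hQ
  set Pr := ∏ x ∈ M ×ˢ M, (if x.1 = x.2 then 1 else (val d x.1 - val d x.2)
    + (val d x.2 - val d x.1)) with hPr
  have hPr0 : 0 < Pr := by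
    refine Finset.prod_pos fun x hx => ?_
    obtain ⟨h1, h2⟩ := Finset.mem_product.1 hx
    split_ifs with h
    · exact one_pos
    · have : val d x.1 ≠ val d x.2 := fun h3 => h (val_inj (hd _ h1) (hd _ h2) h3)
      omega
  have hPrle : Pr ≤ 2 ^ (Q - 2) := by
    have h1 : ∀ x ∈ M ×ˢ M, (if x.1 = x.2 then 1 else (val d x.1 - val d x.2)
        + (val d x.2 - val d x.1)) ≤ (d + 1) ^ n := by
      intro x hx
      obtain ⟨h1, h2⟩ := Finset.mem_product.1 hx
      split_ifs with h
      · exact Nat.one_le_pow _ _ (Nat.succ_pos d)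
      · have e1 := val_lt (hd _ h1)
        have e2 := val_lt (hd _ h2)
        omega
    calc Pr ≤ ((d + 1) ^ n) ^ (M ×ˢ M).card := by
          rw [hPr]
          exact Finset.prod_le_pow_card _ _ _ h1
      _ ≤ ((d + 1) ^ n) ^ (N ^ 2) := by
          refine Nat.pow_le_pow_right (Nat.one_le_pow _ _ (Nat.succ_pos d)) ?_
          rw [Finset.card_product, sq]
          exact Nat.mul_le_mul hM hM
      _ ≤ ((2 ^ (Nat.log 2 (d + 1) + 1)) ^ n) ^ (N ^ 2) := by
          gcongr
          exact (Nat.lt_pow_succ_log_self (by norm_num) _).le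
      _ = 2 ^ (Q - 2) := by
          rw [← pow_mul, ← pow_mul]
          congr 1
          rw [hQ, Nat.add_sub_cancel]
          ring
  -- some `p ≤ 2 Q` does not divide `Pr`
  have hex : ∃ p, 1 ≤ p ∧ p ≤ 2 * Q ∧ ¬ p ∣ Pr := by
    by_contra hcon
    push Not at hcon
    have hdvd : Nat.lcmUpto (2 * Q) ∣ Pr := by
      unfold Nat.lcmUpto
      apply Finset.lcm_dvd
      intro p hp
      rw [Finset.mem_Icc] at hp
      exact hcon p hp.1 hp.2
    have h1 := Chebyshev.two_pow_le_mul_lcmUpto (2 * Q)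
    have h2 := Nat.le_of_dvd hPr0 hdvd
    have h3 : 2 * Q + 1 ≤ 2 ^ (Q + 1) := by
      have : Q < 2 ^ Q := Nat.lt_two_pow_self
      rw [pow_succ]
      omega
    have h4 : 2 ^ (2 * Q) ≤ 2 ^ (Q + 1) * 2 ^ (Q - 2) :=
      h1.trans (Nat.mul_le_mul h3 (h2.trans hPrle))
    rw [← pow_add] at h4
    have h5 := (Nat.pow_le_pow_iff_right (by norm_num : 1 < 2)).1 h4
    have : 2 ≤ Q := by omega
    omega
  obtain ⟨p, hp1, hp2, hp⟩ := hex
  refine ⟨p, hp1, hp2, ?_⟩
  intro a ha b hb hab
  by_contra hne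
  apply hp
  have h1 : p ∣ (val d a - val d b) + (val d b - val d a) := by
    rcases le_total (val d a) (val d b) with h | h
    · rw [Nat.sub_eq_zero_of_le h, zero_add]
      exact (Nat.modEq_iff_dvd' h).1 hab
    · rw [Nat.sub_eq_zero_of_le h, add_zero]
      exact (Nat.modEq_iff_dvd' h).1 hab.symm
  refine h1.trans ?_
  have h2 := Finset.dvd_prod_of_mem (fun x : (Fin n →₀ ℕ) × (Fin n →₀ ℕ) =>
    (if x.1 = x.2 then 1 else (val d x.1 - val d x.2) + (val d x.2 - val d x.1)))
    (Finset.mk_mem_product ha hb)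
  simp only [if_neg hne] at h2
  exact h2

theorem subst_monomial (n d p : ℕ) (a : Fin n →₀ ℕ) (c : ℚ) :
    subst n d p (MvPolynomial.monomial a c)
      = C c * X ^ (∑ i : Fin n, ((d + 1) ^ (i : ℕ) % p) * a i) := by
  unfold subst
  rw [MvPolynomial.aeval_monomial, Polynomial.algebraMap_eq, Finsupp.prod_fintype]
  · congr 1
    rw [← Finset.prod_pow_eq_pow_sum]
    refine Finset.prod_congr rfl fun i _ => ?_
    rw [← pow_mul]
  · intro i
    rw [pow_zero]

/-- the substitution is injective on the span of the monomials in `M` -/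
theorem subst_inj {n d p : ℕ} (M : Finset (Fin n →₀ ℕ))
    (hp : ∀ a ∈ M, ∀ b ∈ M, val d a % p = val d b % p → a = b)
    (P : MvPolynomial (Fin n) ℚ) (hP : P.support ⊆ M) (h : subst n d p P = 0) : P = 0 := by
  classical
  have h1 : P = ∑ a ∈ M, MvPolynomial.monomial a (P.coeff a) := by
    conv_lhs => rw [P.as_sum]
    refine Finset.sum_subset hP fun a _ ha => ?_
    rw [MvPolynomial.notMem_support_iff.1 ha, map_zero]
  have hexp : ∀ a : Fin n →₀ ℕ, (∑ i : Fin n, ((d + 1) ^ (i : ℕ) % p) * a i) % p = val d a % p := by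
    intro a
    unfold val
    rw [Finset.sum_nat_mod]
    conv_rhs => rw [Finset.sum_nat_mod]
    congr 1
    refine Finset.sum_congr rfl fun i _ => ?_
    rw [Nat.mod_mul_mod, mul_comm]
  have h2 : ∑ a ∈ M, (C (P.coeff a) * X ^ (∑ i : Fin n, ((d + 1) ^ (i : ℕ) % p) * a i) : ℚ[X]) = 0 := by
    rw [← h]
    conv_rhs => rw [h1]
    rw [map_sum]
    refine Finset.sum_congr rfl fun a _ => ?_
    rw [subst_monomial]
  rw [h1]
  refine Finset.sum_eq_zero fun a ha => ?_
  have h3 := congrArg (fun q => coeff q (∑ i : Fin n, ((d + 1) ^ (i : ℕ) % p) * a i)) h2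
  simp only [finsetSum_coeff, coeff_C_mul_X_pow, coeff_zero] at h3
  rw [Finset.sum_eq_single a] at h3
  · rw [if_pos rfl] at h3
    rw [h3, map_zero]
  · intro b hb hba
    rw [if_neg]
    intro h4
    apply hba
    apply hp b hb a ha
    rw [← hexp, ← hexp, ← h4]
  · intro h4
    exact absurd ha h4

/-- Injectivity passes through all layers of a network with scalar coefficients. -/
theorem network {K : Type*} [Field K] [CharZero K] {R : Type*} [CommRing R] [Algebra K R]
    (φ : R →ₐ[K] K[X]) (s Δ : ℕ) (k E : ℕ → ℕ) (hE : ∀ r, 4 * k r ^ 2 ≤ E r)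
    (g : ℕ → Fin s → R) (h0 : ∀ i j, Inj2 φ (g 0 i) (g 0 j))
    (hg : ∀ r < Δ, ∀ j, ∃ (a : Fin (k r) → K) (u : Fin (k r) → Fin s),
      g (r + 1) j = ∑ i, a i • g r (u i) ^ E r) :
    ∀ r ≤ Δ, ∀ i j : Fin s, Inj2 φ (g r i) (g r j) := by
  intro r
  induction r with
  | zero => intro _ i j; exact h0 i j
  | succ r ih =>
    intro hr i j
    have ih' := ih (by omega)
    obtain ⟨a, u, hi⟩ := hg r hr i
    obtain ⟨a', u', hj⟩ := hg r hr j
    rw [hi, hj]
    rcases Nat.eq_zero_or_pos (k r) with hk | hk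
    · intro α β _
      have e1 : ∀ (f : Fin (k r) → R), ∑ i, f i = 0 := by
        intro f
        refine Finset.sum_eq_zero fun i _ => ?_
        have := i.2
        omega
      rw [e1, e1]
      simp
    · have e1 : ∀ (a : Fin (k r) → K) (u : Fin (k r) → Fin s), ∑ i, a i • g r (u i) ^ E r
          = ∑ i, (algebraMap K R (a i)) * g r (u i) ^ E r := by
        intro a u
        refine Finset.sum_congr rfl fun i _ => ?_
        rw [Algebra.smul_def]
      rw [e1, e1]
      have hcst : ∀ {ι : Type} [Fintype ι] (u B : ι → R) (_ : ∀ i, ∃ c : K, B i = algebraMap K R c)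
          (t : ι), ∃ c : K, cls K (E r) u B t = algebraMap K R c := by
        intro ι _ u B hB t
        choose c hc using hB
        refine ⟨∑ i, fac K (u i) (u t) ^ E r * c i, ?_⟩
        unfold cls
        rw [map_sum]
        refine Finset.sum_congr rfl fun i _ => ?_
        rw [hc, map_mul, Algebra.smul_def]
      have hz : ∃ c : K, (0 : R) = algebraMap K R c := ⟨0, (map_zero _).symm⟩
      have hL : ∀ t, ∃ c : K, pairL K (E r) (fun i' => g r (u i')) (fun i' => g r (u' i'))
          (fun i' => algebraMap K R (a i')) t = algebraMap K R c := by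
        intro t
        refine hcst _ _ ?_ _
        intro i
        rcases i with i | i
        · exact ⟨_, rfl⟩
        · exact hz
      have hR : ∀ t, ∃ c : K, pairR K (E r) (fun i' => g r (u i')) (fun i' => g r (u' i'))
          (fun i' => algebraMap K R (a' i')) t = algebraMap K R c := by
        intro t
        refine hcst _ _ ?_ _
        intro i
        rcases i with i | i
        · exact hz
        · exact ⟨_, rfl⟩
      refine layer2 φ 0 (E r) _ _ _ _ ?_ ?_ ?_ ?_
      · have h1 := hE r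
        obtain ⟨κ, hκ⟩ : ∃ κ, k r = κ + 1 := ⟨k r - 1, by omega⟩
        rw [hκ] at h1 ⊢
        have h2 : 2 * (κ + 1) - 2 = 2 * κ := by omega
        rw [h2]
        nlinarith
      · intro x y
        rcases x with x | x <;> rcases y with y | y <;> exact ih' _ _
      · intro α β t
        obtain ⟨c, hc⟩ := hL t
        obtain ⟨c', hc'⟩ := hR t
        rw [hc, hc', map_add, map_smul, map_smul, AlgHom.commutes, AlgHom.commutes,
          Polynomial.algebraMap_eq, smul_eq_C_mul, smul_eq_C_mul, ← C_mul, ← C_mul, ← C_add,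
          natDegree_C]
      · intro t α β h
        obtain ⟨c, hc⟩ := hL t
        obtain ⟨c', hc'⟩ := hR t
        rw [hc, hc'] at h ⊢
        rw [map_add, map_smul, map_smul, AlgHom.commutes, AlgHom.commutes,
          Polynomial.algebraMap_eq, smul_eq_C_mul, smul_eq_C_mul, ← C_mul, ← C_mul, ← C_add,
          C_eq_zero] at h
        rw [Algebra.smul_def, Algebra.smul_def, ← map_mul, ← map_mul, ← map_add, h, map_zero]

/-- Main theorem for sparse polynomials. -/
theorem main_sparse (n s m d Δ D : ℕ) (k E : ℕ → ℕ) (hE : ∀ r, 4 * k r ^ 2 ≤ E r)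
    (g : ℕ → Fin s → MvPolynomial (Fin n) ℚ)
    (h0 : ∀ j, (g 0 j).support.card ≤ m ∧ ∀ i, (g 0 j).degreeOf i ≤ d)
    (hg : ∀ r < Δ, ∀ j, ∃ (a : Fin (k r) → ℚ) (u : Fin (k r) → Fin s),
      g (r + 1) j = ∑ i, a i • g r (u i) ^ E r)
    (e : ℕ → Fin s → ℕ) (f : MvPolynomial (Fin n) ℚ)
    (hf : f = ∏ r ∈ Finset.range (Δ + 1), ∏ j, g r j ^ e r j)
    (hne : f ≠ 0) (hD : f.totalDegree ≤ D) :
    ∃ p : ℕ, p ≤ 2 * (n * (s * m) ^ 2 * (Nat.log 2 (d + 1) + 1) + 2) ∧ ∃ t : ℕ, t ≤ D * p ∧
      MvPolynomial.eval (fun i : Fin n => (t : ℚ) ^ ((d + 1) ^ (i : ℕ) % p)) f ≠ 0 := by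
  classical
  set M : Finset (Fin n →₀ ℕ) := Finset.univ.biUnion fun j => (g 0 j).support with hM
  have hMc : M.card ≤ s * m := by
    refine Finset.card_biUnion_le.trans ?_
    calc ∑ j : Fin s, (g 0 j).support.card ≤ ∑ _j : Fin s, m :=
          Finset.sum_le_sum fun j _ => (h0 j).1
      _ = s * m := by simp
  have hMd : ∀ a ∈ M, ∀ i, a i ≤ d := by
    intro a ha i
    obtain ⟨j, _, hj⟩ := Finset.mem_biUnion.1 ha
    exact (MvPolynomial.le_degreeOf_of_mem_support i hj).trans ((h0 j).2 i)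
  obtain ⟨p, hp1, hp2, hp⟩ := exists_modulus M hMc hMd
  refine ⟨p, hp2, ?_⟩
  set φ := subst n d p with hφ
  have hbase : ∀ i j, Inj2 φ (g 0 i) (g 0 j) := by
    intro i j α β h
    refine subst_inj M hp _ ?_ h
    have hsub : ∀ j, (g 0 j).support ⊆ M := fun j =>
      Finset.subset_biUnion_of_mem (fun j => (g 0 j).support) (Finset.mem_univ j)
    refine (MvPolynomial.support_add).trans (Finset.union_subset ?_ ?_)
    · exact (MvPolynomial.support_smul).trans (hsub i)
    · exact (MvPolynomial.support_smul).trans (hsub j)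
  have hinj := network φ s Δ k E hE g hbase hg
  have hφne : φ f ≠ 0 := by
    rw [hf] at hne ⊢
    rw [map_prod]
    simp only [map_prod, map_pow]
    rw [Finset.prod_ne_zero_iff] at hne ⊢
    intro r hr
    have h1 := hne r hr
    rw [Finset.prod_ne_zero_iff] at h1 ⊢
    intro j hj
    have h2 := h1 j hj
    by_cases he : e r j = 0
    · rw [he, pow_zero]
      exact one_ne_zero
    · apply pow_ne_zero
      intro h3
      apply h2
      rw [(hinj r (Nat.lt_succ_iff.1 (Finset.mem_range.1 hr)) j j).left h3, zero_pow he]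
  have hdeg : (φ f).natDegree ≤ D * p := natDegree_subst_le n d p hp1 _ D hD
  obtain ⟨t, ht, htr⟩ := exists_nonroot (fun _ : Unit => φ f) (D * p) (fun _ => hφne)
    (fun _ => hdeg)
  refine ⟨t, by simpa using ht, ?_⟩
  have := htr ()
  rwa [eval_subst] at this

end Pool.Agent.W2helper58.HP
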