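import Pool.Agent.W2helper58.HP.Mason

/-!
# Transfer of injectivity through a layer of sums of high powers
-/

open Polynomial

namespace Pool.Agent.W2helper58.HP

variable {K : Type*} [Field K] [CharZero K]

/-- finset version of `indep` -/
theorem indep_finset {ι : Type*} (a E : ℕ) (s : Finset ι) (f b : ι → K[X])
    (hf : ∀ i ∈ s, f i ≠ 0) (hpair : ∀ i ∈ s, ∀ j ∈ s, i ≠ j → ∀ μ : K, f i ≠ C μ * f j)
    (hb : ∀ i ∈ s, (b i).natDegree ≤ a) (hE : s.card * (s.card - 2) + (s.card - 1) * a < E)
    (hrel : ∑ i ∈ s, b i * f i ^ E = 0) : ∀ i ∈ s, b i = 0 := by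
  classical
  let ε := s.equivFin
  have h := indep a E s.card (fun i => f (ε.symm i)) (fun i => b (ε.symm i))
    (fun i => hf _ (ε.symm i).2)
    (fun i j hij μ => hpair _ (ε.symm i).2 _ (ε.symm j).2
      (fun h => hij (ε.symm.injective (Subtype.ext h))) μ)
    (fun i => hb _ (ε.symm i).2) hE (by
      rw [← hrel, ← Finset.sum_coe_sort s]
      exact Equiv.sum_comp ε.symm (fun k : s => b k * f k ^ E))
  intro i hi
  have := h (ε ⟨i, hi⟩)
  simpa using this

variable {R : Type*} [CommRing R] [Algebra K R]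

/-- `φ` is injective on the span of `x` and `y` -/
def Inj2 (φ : R →ₐ[K] K[X]) (x y : R) : Prop :=
  ∀ α β : K, φ (α • x + β • y) = 0 → α • x + β • y = 0

open Classical in
/-- the factor of proportionality of `x` to `y` (and `0` if there is none) -/
noncomputable def fac (K : Type*) [Field K] {R : Type*} [CommRing R] [Algebra K R] (x y : R) : K :=
  if h : ∃ μ : K, x = μ • y then h.choose else 0

omit [CharZero K] in
theorem fac_eq {x y : R} (hy : y ≠ 0) {μ : K} (h : x = μ • y) : fac K x y = μ := by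
  classical
  have h1 : ∃ μ : K, x = μ • y := ⟨μ, h⟩
  unfold fac
  rw [dif_pos h1]
  have h2 := h1.choose_spec
  have h3 : (h1.choose - μ) • y = 0 := by
    rw [sub_smul, ← h2, ← h, sub_self]
  rcases smul_eq_zero.1 h3 with h4 | h4
  · exact sub_eq_zero.1 h4
  · exact absurd h4 hy

omit [CharZero K] in
theorem fac_eq_zero {x y : R} (h : ¬ ∃ μ : K, x = μ • y) : fac K x y = 0 := by
  unfold fac
  rw [dif_neg h]

/-- the sum of the multipliers over the class of `u j` -/
noncomputable def cls {ι : Type*} [Fintype ι] (K : Type*) [Field K] {R : Type*} [CommRing R]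
    [Algebra K R] (E : ℕ) (u B : ι → R) (j : ι) : R :=
  ∑ i, fac K (u i) (u j) ^ E • B i

omit [CharZero K] in
/-- grouping by classes of proportional elements -/
theorem grouping {ι : Type*} [Fintype ι] (E : ℕ) (hE : E ≠ 0) (u : ι → R) :
    ∃ J : Finset ι, (∀ j ∈ J, u j ≠ 0) ∧
      (∀ i ∈ J, ∀ j ∈ J, i ≠ j → ∀ μ : K, u i ≠ μ • u j) ∧
      ∀ B : ι → R, ∑ i, B i * u i ^ E = ∑ j ∈ J, cls K E u B j * u j ^ E := by
  classical
  let S : Setoid ι :=
    { r := fun i j => ∃ μ : K, μ ≠ 0 ∧ u i = μ • u j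
      iseqv :=
        { refl := fun i => ⟨1, one_ne_zero, by rw [one_smul]⟩
          symm := by
            rintro i j ⟨μ, hμ, h⟩
            refine ⟨μ⁻¹, inv_ne_zero hμ, ?_⟩
            rw [h, smul_smul, inv_mul_cancel₀ hμ, one_smul]
          trans := by
            rintro i j l ⟨μ, hμ, h⟩ ⟨ν, hν, h'⟩
            refine ⟨μ * ν, mul_ne_zero hμ hν, ?_⟩
            rw [h, h', smul_smul] } }
  let r : ι → ι := fun i => (Quotient.mk S i).out
  have hr : ∀ i, ∃ μ : K, μ ≠ 0 ∧ u i = μ • u (r i) := by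
    intro i
    have h : S (r i) i := Quotient.mk_out i
    exact S.symm h
  have hrr : ∀ i j, (∃ μ : K, μ ≠ 0 ∧ u i = μ • u j) → r i = r j := by
    intro i j h
    have : Quotient.mk S i = Quotient.mk S j := Quotient.sound h
    change (Quotient.mk S i).out = (Quotient.mk S j).out
    rw [this]
  have hrid : ∀ i, r (r i) = r i := by
    intro i
    refine (hrr _ _ ?_).symm
    exact hr i
  refine ⟨(Finset.univ.image r).filter (fun j => u j ≠ 0), ?_, ?_, ?_⟩
  · intro j hj
    exact (Finset.mem_filter.1 hj).2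
  · intro i hi j hj hij μ h
    obtain ⟨hi1, hi0⟩ := Finset.mem_filter.1 hi
    obtain ⟨hj1, hj0⟩ := Finset.mem_filter.1 hj
    obtain ⟨i', _, rfl⟩ := Finset.mem_image.1 hi1
    obtain ⟨j', _, rfl⟩ := Finset.mem_image.1 hj1
    by_cases hμ : μ = 0
    · rw [hμ, zero_smul] at h
      exact hi0 h
    · apply hij
      have := hrr _ _ ⟨μ, hμ, h⟩
      rwa [hrid, hrid] at this
  · intro B
    have h1 : ∑ i, B i * u i ^ E
        = ∑ j ∈ Finset.univ.image r, ∑ i ∈ Finset.univ.filter (fun i => r i = j),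
          B i * u i ^ E := by
      exact (Finset.sum_fiberwise_of_maps_to (fun i hi => Finset.mem_image_of_mem r hi) _).symm
    rw [h1, Finset.sum_filter]
    refine Finset.sum_congr rfl fun j hj => ?_
    by_cases hj0 : u j = 0
    · rw [if_neg (by simpa using hj0)]
      refine Finset.sum_eq_zero fun i hi => ?_
      obtain ⟨_, hi2⟩ := Finset.mem_filter.1 hi
      obtain ⟨μ, _, hμ⟩ := hr i
      rw [hi2, hj0, smul_zero] at hμ
      rw [hμ, zero_pow hE, mul_zero]
    · rw [if_pos hj0]
      unfold cls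
      rw [Finset.sum_mul, Finset.sum_filter]
      refine Finset.sum_congr rfl fun i _ => ?_
      by_cases hi : r i = j
      · rw [if_pos hi]
        obtain ⟨μ, _, hμ⟩ := hr i
        rw [hi] at hμ
        rw [fac_eq hj0 hμ, hμ, _root_.smul_pow, smul_mul_assoc, mul_smul_comm]
      · rw [if_neg hi]
        have h0 : fac K (u i) (u j) = 0 := by
          by_cases hex : ∃ μ : K, u i = μ • u j
          · obtain ⟨μ, hμ⟩ := hex
            rw [fac_eq hj0 hμ]
            by_contra hμ0
            apply hi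
            obtain ⟨j', _, rfl⟩ := Finset.mem_image.1 hj
            rw [← hrid j']
            exact hrr _ _ ⟨μ, hμ0, hμ⟩
          · exact fac_eq_zero hex
        rw [h0, zero_pow hE, zero_smul, zero_mul]

/-- One layer: if the images of the sums of the multipliers over the classes determine them, the
image of the sum of high powers determines whether it is zero. -/
theorem layer {ι : Type*} [Fintype ι] (φ : R →ₐ[K] K[X]) (a E : ℕ) (u B : ι → R)
    (hE : Fintype.card ι * (Fintype.card ι - 2) + (Fintype.card ι - 1) * a < E)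
    (hu : ∀ i j, Inj2 φ (u i) (u j)) (hdeg : ∀ j, (φ (cls K E u B j)).natDegree ≤ a)
    (hcls : ∀ j, φ (cls K E u B j) = 0 → cls K E u B j = 0)
    (h : φ (∑ i, B i * u i ^ E) = 0) : ∑ i, B i * u i ^ E = 0 := by
  classical
  have hE0 : E ≠ 0 := by omega
  obtain ⟨J, hJ0, hJ, hsum⟩ := grouping (K := K) E hE0 u
  rw [hsum] at h ⊢
  rw [map_sum] at h
  simp only [map_mul, map_pow] at h
  have hcard : J.card ≤ Fintype.card ι := Finset.card_le_univ J
  have h1 := indep_finset a E J (fun j => φ (u j)) (fun j => φ (cls K E u B j)) ?_ ?_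
    (fun j _ => hdeg j) ?_ h
  · refine Finset.sum_eq_zero fun j hj => ?_
    rw [hcls j (h1 j hj), zero_mul]
  · intro j hj h0
    apply hJ0 j hj
    have := hu j j 1 0 (by simpa using h0)
    simpa using this
  · intro i hi j hj hij μ hμ
    apply hJ i hi j hj hij μ
    have := hu i j 1 (-μ) (by
      rw [map_add, map_smul, map_smul, one_smul, hμ, neg_smul, smul_eq_C_mul]
      ring)
    rw [one_smul, neg_smul, ← sub_eq_add_neg] at this
    exact sub_eq_zero.1 this
  · refine lt_of_le_of_lt ?_ hE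
    exact Nat.add_le_add (Nat.mul_le_mul hcard (by omega)) (Nat.mul_le_mul_right _ (by omega))

omit [CharZero K] in
theorem cls_add {ι : Type*} [Fintype ι] (E : ℕ) (u B B' : ι → R) (α β : K) (j : ι) :
    cls K E u (fun i => α • B i + β • B' i) j = α • cls K E u B j + β • cls K E u B' j := by
  unfold cls
  rw [Finset.smul_sum, Finset.smul_sum, ← Finset.sum_add_distrib]
  refine Finset.sum_congr rfl fun i _ => ?_
  rw [smul_add, smul_comm α, smul_comm β]

/-- the inputs of two gates together -/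
def inp {k : ℕ} (u u' : Fin k → R) : Fin k ⊕ Fin k → R := Sum.elim u u'

/-- the class sums of the first gate -/
noncomputable def pairL (K : Type*) [Field K] {R : Type*} [CommRing R] [Algebra K R]
    {k : ℕ} (E : ℕ) (u u' A : Fin k → R) (t : Fin k ⊕ Fin k) : R :=
  cls K E (inp u u') (Sum.elim A 0) t

/-- the class sums of the second gate -/
noncomputable def pairR (K : Type*) [Field K] {R : Type*} [CommRing R] [Algebra K R]
    {k : ℕ} (E : ℕ) (u u' A' : Fin k → R) (t : Fin k ⊕ Fin k) : R :=
  cls K E (inp u u') (Sum.elim 0 A') t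

/-- One layer, for two gates. -/
theorem layer2 {k : ℕ} (φ : R →ₐ[K] K[X]) (a E : ℕ) (u u' A A' : Fin k → R)
    (hE : 2 * k * (2 * k - 2) + (2 * k - 1) * a < E)
    (hu : ∀ i j, Inj2 φ (inp u u' i) (inp u u' j))
    (hdeg : ∀ (α β : K) j,
      (φ (α • pairL K E u u' A j + β • pairR K E u u' A' j)).natDegree ≤ a)
    (hcls : ∀ j, Inj2 φ (pairL K E u u' A j) (pairR K E u u' A' j)) :
    Inj2 φ (∑ i, A i * u i ^ E) (∑ i, A' i * u' i ^ E) := by
  intro α β h
  have key : α • (∑ i, A i * u i ^ E) + β • (∑ i, A' i * u' i ^ E)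
      = ∑ i : Fin k ⊕ Fin k, (α • (Sum.elim A 0 : Fin k ⊕ Fin k → R) i
        + β • (Sum.elim 0 A' : Fin k ⊕ Fin k → R) i) * inp u u' i ^ E := by
    rw [Fintype.sum_sum_type, Finset.smul_sum, Finset.smul_sum]
    congr 1
    · refine Finset.sum_congr rfl fun i _ => ?_
      simp [inp]
    · refine Finset.sum_congr rfl fun i _ => ?_
      simp [inp]
  rw [key] at h ⊢
  have hcard : Fintype.card (Fin k ⊕ Fin k) = 2 * k := by
    rw [Fintype.card_sum, Fintype.card_fin]; ring
  refine layer φ a E _ _ (by rw [hcard]; exact hE) hu ?_ ?_ h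
  · intro j
    rw [cls_add]
    exact hdeg α β j
  · intro j hj
    rw [cls_add] at hj ⊢
    exact hcls j α β hj

end Pool.Agent.W2helper58.HP
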